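import Pool.Agent.W142.TF.Stm4
import Pool.Agent.W880.TF.Low

set_option autoImplicit false
open Filter Topology Finset
open scoped BoundedContinuousFunction

/-! Project HF: lower bound for the iterated mean, graph version (helper372, adapted from the file of
helper880). -/

namespace Pool.Agent.W372.HF

open Pool.Agent.W634.BQ Pool.Agent.W505.BQ Pool.Agent.W27.FB Pool.Agent.W142.TF Pool.Agent.W880.TF

/-- the class sums are large -/
theorem lemA (hcls : S_cls) {m : (ℤ →ᵇ ℝ) →ₗ[ℝ] ℝ} (hm : IsMean m) {P : ℤ →ᵇ ℝ} {q S d p : ℕ} {r : ℤ}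
    {η ρ : ℝ} (hη : 0 < η) (hq : 1 ≤ q) (hqS : q ∣ S)
    (hper : ∀ x y : ℤ, (q : ℤ) ∣ x - y →
      |∑ z ∈ range p, P (x + S * d * z) - ∑ z ∈ range p, P (y + S * d * z)| ≤ η * p)
    (hlow : (ρ + 8 * η) / q ≤ m (cls q r * P)) {x : ℤ} (hx : (q : ℤ) ∣ x - r) :
    (ρ + 6 * η) * p ≤ ∑ z ∈ range p, P (x + S * d * z) := by
  have hq0 : (0 : ℝ) < q := by exact_mod_cast hq
  have hqS' : (q : ℤ) ∣ (S : ℤ) := Int.natCast_dvd_natCast.2 hqS
  have e1 : m (cls q r * ∑ z ∈ range p, sh ((S : ℤ) * d * z) P) = p * m (cls q r * P) := by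
    rw [mul_sum, map_sum]
    have : ∀ z ∈ range p, m (cls q r * sh ((S : ℤ) * d * z) P) = m (cls q r * P) := fun z _ =>
      m_cls_sh hm (by rw [mul_assoc]; exact Dvd.dvd.mul_right hqS' _) P
    rw [sum_congr rfl this, sum_const, card_range, nsmul_eq_mul]
  have e2 : m (cls q r * ∑ z ∈ range p, sh ((S : ℤ) * d * z) P) ≤
      m ((∑ z ∈ range p, P (x + S * d * z) + η * p) • cls q r) := by
    refine m_mono hm fun t => ?_
    rw [BoundedContinuousFunction.coe_mul, Pi.mul_apply, sum_apply']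
    show _ ≤ (∑ z ∈ range p, P (x + S * d * z) + η * p) * cls q r t
    rcases cls_sp q r t with ⟨h1, h2⟩ | ⟨h1, h2⟩
    · rw [h1, one_mul, mul_one]
      have h3 : (q : ℤ) ∣ t - x := by
        have : t - x = (t - r) - (x - r) := by ring
        rw [this]
        exact dvd_sub h2 hx
      have h4 := (abs_le.1 (hper t x h3)).2
      have h5 : ∑ z ∈ range p, (sh ((S : ℤ) * d * z) P) t = ∑ z ∈ range p, P (t + S * d * z) :=
        sum_congr rfl fun z _ => sh_apply _ _ _
      rw [h5]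
      linarith
    · rw [h1, zero_mul, mul_zero]
  rw [e1, map_smul, smul_eq_mul, hcls.2.1 m hm q r hq] at e2
  have e3 : p * ((ρ + 8 * η) / q) ≤ (∑ z ∈ range p, P (x + S * d * z) + η * p) * (1 / q) :=
    (mul_le_mul_of_nonneg_left hlow (Nat.cast_nonneg p)).trans e2
  rw [mul_div_assoc', mul_one_div, div_le_div_iff_of_pos_right hq0] at e3
  have hp0 : (0 : ℝ) ≤ p := Nat.cast_nonneg p
  nlinarith [mul_nonneg hη.le hp0]

/-- the shifts -/
def szn (n : ℕ) (S : ℕ → ℕ) (d : ℕ) (z : Fin n → ℕ) (j : ℕ) : ℤ :=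
  if h : j < n then (S j : ℤ) * d * z ⟨j, h⟩ else 0

theorem GP_bd {n : ℕ} {e P : ℕ → (ℤ →ᵇ ℝ)} {c : ℕ → ℕ → ℕ} (s : ℕ → Finset ℕ)
    (he : ∀ j x, 0 ≤ e j x ∧ e j x ≤ 1)
    (hP : ∀ j < n, ∀ x, 0 ≤ P j x ∧ P j x ≤ 1) (a : ℕ → ℤ) :
    0 ≤ GP e P c s n a ∧ GP e P c s n a ≤ 1 := by
  unfold GP
  have h : ∀ j ∈ range n, 0 ≤ e j (a j) * ∏ i ∈ s j, P j (a j - c j i * a i) ∧
      e j (a j) * ∏ i ∈ s j, P j (a j - c j i * a i) ≤ 1 := by
    intro j hj
    have hj := mem_range.1 hj
    have h1 : 0 ≤ ∏ i ∈ s j, P j (a j - c j i * a i) := prod_nonneg fun i _ => (hP j hj _).1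
    have h2 : ∏ i ∈ s j, P j (a j - c j i * a i) ≤ 1 :=
      prod_le_one (fun i _ => (hP j hj _).1) (fun i _ => (hP j hj _).2)
    exact ⟨mul_nonneg (he j _).1 h1, mul_le_one₀ (he j _).2 h1 h2⟩
  exact ⟨prod_nonneg fun j hj => (h j hj).1, prod_le_one (fun j hj => (h j hj).1) fun j hj => (h j hj).2⟩

/-- the pairs `(j, i)` with `i < j < n` -/
def prs (n : ℕ) : Finset (Σ _ : ℕ, ℕ) := (range n).sigma fun j => range j

theorem prs_card (n : ℕ) : 2 * ((prs n).card : ℝ) ≤ n ^ 2 := by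
  have h1 : (prs n).card * 2 = n * (n - 1) := by
    unfold prs
    rw [card_sigma]
    simp only [card_range]
    exact Finset.sum_range_id_mul_two n
  have h2 : (prs n).card * 2 ≤ n * n := by
    rw [h1]
    exact Nat.mul_le_mul_left _ (Nat.sub_le _ _)
  have h3 : ((prs n).card : ℝ) * 2 ≤ n * n := by exact_mod_cast h2
  nlinarith

theorem mem_prs {n i j : ℕ} : (⟨j, i⟩ : Σ _ : ℕ, ℕ) ∈ prs n ↔ i < j ∧ j < n := by
  unfold prs
  rw [mem_sigma, mem_range, mem_range]
  exact and_comm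

/-- the graph of a set of pairs -/
def gr (t : Finset (ℕ × ℕ)) (j : ℕ) : Finset ℕ := (range j).filter fun i => (i, j) ∈ t

open Classical in
/-- the graphs without large independent sets -/
noncomputable def grs (n : ℕ) : Finset (Finset (ℕ × ℕ)) :=
  ((range n ×ˢ range n).powerset).filter fun t => NoInd n (gr t)

theorem grs_card (n : ℕ) : (grs n).card ≤ 2 ^ (n * n) := by
  classical
  unfold grs
  refine (card_filter_le _ _).trans ?_
  rw [card_powerset, card_product, card_range]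

/-- the pointwise lower bound -/
theorem point {n : ℕ} {P P' : ℕ → (ℤ →ᵇ ℝ)} {q S : ℕ → ℕ} {c : ℕ → ℕ → ℕ} {r : ℕ → ℤ} {η ρ : ℝ}
    {p d : ℕ} (hη : 0 < η) (hp : p.Prime)
    (hloc : ∀ Φ Ψ : ℕ → ℕ → ℤ → ℝ, (∀ i j z, 0 ≤ Ψ i j z ∧ Ψ i j z ≤ 1) →
      (∀ i j : ℕ, i < j → j < n → (∀ z : ℕ, z < p → |Ψ i j z - Ψ i j ((z : ℤ) - p)| ≤ η) ∧
        (ρ + 6 * η) * p ≤ ∑ z ∈ range p, Ψ i j z ∧
        ∑ z ∈ range p, ((Φ i j z - Ψ i j z) ^ 2 + (Φ i j ((z : ℤ) - p) - Ψ i j ((z : ℤ) - p)) ^ 2) ≤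
          η ^ 3 * p) →
      ∃ z : ℕ → ℕ, (∀ j, z j < p) ∧ ∀ I : Finset ℕ, I ⊆ range n → n ≤ 4 * I.card →
        ∃ i ∈ I, ∃ j ∈ I, i < j ∧ η < Φ i j ((z j : ℤ) - z i))
    (hP : ∀ j < n, ∀ x, 0 ≤ P j x ∧ P j x ≤ 1) (hP' : ∀ j < n, ∀ x, 0 ≤ P' j x ∧ P' j x ≤ 1)
    (hqS : ∀ j < n, q j ∣ S j) (hc : ∀ i j, i < j → j < n → q j ∣ c j i ∧ S j = c j i * S i)
    (hper : ∀ j < n, ∀ x : ℤ, |P j (x + S j * d * p) - P j x| ≤ η)
    (hA : ∀ j, 1 ≤ j → j < n → ∀ x : ℤ, (q j : ℤ) ∣ x - r j →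
      (ρ + 6 * η) * p ≤ ∑ z ∈ range p, P j (x + S j * d * z)) (a : ℕ → ℤ) :
    (min η 1) ^ (n * n) * ((∏ j ∈ range n, cls (q j) (r j) (a j)) + -(1 / (η ^ 3 * p)) * ∑ x ∈ prs n,
      ((∏ j ∈ range n, cls (q j) (r j) (a j)) *
        Dd ((P' x.1 - P x.1) * (P' x.1 - P x.1)) (S x.1) d p (a x.1 - c x.1 x.2 * a x.2))) ≤
    ∑ t ∈ grs n, ∑ z ∈ Fintype.piFinset (fun _ : Fin n => range p),
      GP (fun j => cls (q j) (r j)) P' c (gr t) n (a + szn n S d z) := by
  classical
  have hp0 : (0 : ℝ) < p := by exact_mod_cast hp.pos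
  have hm0 : 0 < min η 1 := lt_min hη one_pos
  have hm1 : min η 1 ≤ 1 := min_le_right _ _
  have hF := fun s b => GP_bd (n := n) (e := fun j => cls (q j) (r j)) (c := c) s
    (fun j x => ind_01 {a : ℤ | ((q j : ℕ) : ℤ) ∣ a - r j} x) hP' b
  have hsum0 : 0 ≤ ∑ t ∈ grs n, ∑ z ∈ Fintype.piFinset (fun _ : Fin n => range p),
      GP (fun j => cls (q j) (r j)) P' c (gr t) n (a + szn n S d z) :=
    sum_nonneg fun t _ => sum_nonneg fun z _ => (hF _ _).1
  by_cases he : ∀ j < n, cls (q j) (r j) (a j) = 1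
  · have hW : ∏ j ∈ range n, cls (q j) (r j) (a j) = 1 :=
      prod_eq_one fun j hj => he j (mem_range.1 hj)
    rw [hW]
    simp only [one_mul]
    have hD0 : ∀ x ∈ prs n, 0 ≤ Dd ((P' x.1 - P x.1) * (P' x.1 - P x.1)) (S x.1) d p
        (a x.1 - c x.1 x.2 * a x.2) := by
      intro x _
      unfold Dd
      refine sum_nonneg fun z _ => add_nonneg ?_ ?_ <;>
      · rw [BoundedContinuousFunction.coe_mul, Pi.mul_apply]
        exact mul_self_nonneg _
    by_cases hD : ∀ x ∈ prs n, Dd ((P' x.1 - P x.1) * (P' x.1 - P x.1)) (S x.1) d p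
        (a x.1 - c x.1 x.2 * a x.2) ≤ η ^ 3 * p
    · -- the good case
      have hdj : ∀ j < n, (q j : ℤ) ∣ a j - r j := by
        intro j hj
        rcases cls_sp (q j) (r j) (a j) with h | h
        · exact h.2
        · exact absurd (h.1.symm.trans (he j hj)) (by norm_num)
      obtain ⟨z, hz, hz2⟩ := hloc
        (fun i j w => P' j (a j - c j i * a i + S j * d * w))
        (fun i j w => if j < n then P j (a j - c j i * a i + S j * d * w) else 0)
        (fun i j w => by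
          split_ifs with h
          · exact hP j h _
          · exact ⟨le_refl _, zero_le_one⟩)
        (fun i j hij hj => by
          simp only [hj, if_true]
          refine ⟨fun w _ => ?_, ?_, ?_⟩
          · have h1 := hper j hj (a j - c j i * a i + S j * d * ((w : ℤ) - p))
            have e : a j - c j i * a i + S j * d * ((w : ℤ) - p) + S j * d * p =
                a j - c j i * a i + S j * d * w := by ring
            rw [e] at h1
            exact h1
          · refine hA j (by omega) hj _ ?_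
            have e : a j - c j i * a i - r j = (a j - r j) - c j i * a i := by ring
            rw [e]
            exact dvd_sub (hdj j hj)
              (Dvd.dvd.mul_right (Int.natCast_dvd_natCast.2 (hc i j hij hj).1) _)
          · have h1 := hD ⟨j, i⟩ (mem_prs.2 ⟨hij, hj⟩)
            unfold Dd at h1
            refine le_trans (le_of_eq ?_) h1
            refine sum_congr rfl fun w _ => ?_
            simp only [BoundedContinuousFunction.coe_mul, Pi.mul_apply,
              BoundedContinuousFunction.coe_sub, Pi.sub_apply]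
            ring)
      -- the graph
      obtain ⟨t, ht⟩ : ∃ t : Finset (ℕ × ℕ), t = (range n ×ˢ range n).filter (fun x =>
        η < P' x.2 (a x.2 - c x.2 x.1 * a x.1 + S x.2 * d * ((z x.2 : ℤ) - z x.1))) := ⟨_, rfl⟩
      have hgr : ∀ i j, j < n → (i ∈ gr t j ↔ i < j ∧
          η < P' j (a j - c j i * a i + S j * d * ((z j : ℤ) - z i))) := by
        intro i j hj
        unfold gr
        rw [mem_filter, mem_range, ht, mem_filter, mem_product, mem_range, mem_range]
        simp only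
        constructor
        · rintro ⟨h1, _, h2⟩
          exact ⟨h1, h2⟩
        · rintro ⟨h1, h2⟩
          exact ⟨h1, ⟨by omega, hj⟩, h2⟩
      have htmem : t ∈ grs n := by
        unfold grs
        rw [mem_filter, mem_powerset]
        refine ⟨by rw [ht]; exact filter_subset _ _, fun j => filter_subset _ _, ?_⟩
        intro I hI hcard
        obtain ⟨i, hi, j, hj, hij, h⟩ := hz2 I hI hcard
        exact ⟨i, hi, j, hj, (hgr i j (mem_range.1 (hI hj))).2 ⟨hij, h⟩⟩
      have hmem : (fun i : Fin n => z i) ∈ Fintype.piFinset (fun _ : Fin n => range p) := by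
        rw [Fintype.mem_piFinset]
        exact fun i => mem_range.2 (hz i)
      have h1 : (min η 1) ^ (n * n) ≤
          GP (fun j => cls (q j) (r j)) P' c (gr t) n (a + szn n S d (fun i : Fin n => z i)) := by
        unfold GP
        have e1 : (min η 1) ^ (n * n) = ∏ j ∈ range n, ((1 : ℝ) * (min η 1) ^ n) := by
          rw [prod_const, card_range, one_mul, ← pow_mul]
        rw [e1]
        refine prod_le_prod (fun j _ => by positivity) fun j hj => ?_
        have hj := mem_range.1 hj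
        have hsz : ∀ i, i < n → szn n S d (fun i : Fin n => z i) i = S i * d * z i := by
          intro i hi
          unfold szn
          rw [dif_pos hi]
        refine mul_le_mul ?_ ?_ (by positivity) ?_
        · rw [Pi.add_apply, cls_per, he j hj]
          rw [hsz j hj, mul_assoc]
          exact Dvd.dvd.mul_right (Int.natCast_dvd_natCast.2 (hqS j hj)) _
        · have hcj : (gr t j).card ≤ n := by
            have : (gr t j).card ≤ (range j).card := card_le_card (filter_subset _ _)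
            rw [card_range] at this
            omega
          calc (min η 1) ^ n ≤ (min η 1) ^ (gr t j).card :=
                pow_le_pow_of_le_one hm0.le hm1 hcj
            _ = ∏ _i ∈ gr t j, min η 1 := by rw [prod_const]
            _ ≤ _ := by
              refine prod_le_prod (fun _ _ => hm0.le) fun i hi => ?_
              obtain ⟨hij, h3⟩ := (hgr i j hj).1 hi
              have h4 : (S j : ℤ) = c j i * S i := by exact_mod_cast (hc i j hij hj).2
              have e2 : (a + szn n S d (fun i : Fin n => z i)) j -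
                  c j i * (a + szn n S d (fun i : Fin n => z i)) i =
                  a j - c j i * a i + S j * d * ((z j : ℤ) - z i) := by
                rw [Pi.add_apply, Pi.add_apply, hsz j hj, hsz i (by omega), h4]
                ring
              rw [e2]
              exact (min_le_left _ _).trans h3.le
        · exact (ind_01 {a : ℤ | ((q j : ℕ) : ℤ) ∣ a - r j} _).1
      have h2 : GP (fun j => cls (q j) (r j)) P' c (gr t) n (a + szn n S d (fun i : Fin n => z i)) ≤
          ∑ z ∈ Fintype.piFinset (fun _ : Fin n => range p),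
            GP (fun j => cls (q j) (r j)) P' c (gr t) n (a + szn n S d z) :=
        single_le_sum (f := fun z => GP (fun j => cls (q j) (r j)) P' c (gr t) n (a + szn n S d z))
          (fun z _ => (hF _ _).1) hmem
      have h2' : ∑ z ∈ Fintype.piFinset (fun _ : Fin n => range p),
            GP (fun j => cls (q j) (r j)) P' c (gr t) n (a + szn n S d z) ≤
          ∑ t ∈ grs n, ∑ z ∈ Fintype.piFinset (fun _ : Fin n => range p),
            GP (fun j => cls (q j) (r j)) P' c (gr t) n (a + szn n S d z) :=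
        single_le_sum (f := fun t => ∑ z ∈ Fintype.piFinset (fun _ : Fin n => range p),
            GP (fun j => cls (q j) (r j)) P' c (gr t) n (a + szn n S d z))
          (fun t _ => sum_nonneg fun z _ => (hF _ _).1) htmem
      refine le_trans ?_ (h1.trans (h2.trans h2'))
      refine mul_le_of_le_one_right (by positivity) ?_
      have h3 : 0 ≤ 1 / (η ^ 3 * p) * ∑ x ∈ prs n, Dd ((P' x.1 - P x.1) * (P' x.1 - P x.1)) (S x.1) d p
          (a x.1 - c x.1 x.2 * a x.2) := mul_nonneg (by positivity) (sum_nonneg hD0)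
      linarith
    · push Not at hD
      obtain ⟨x, hx, h1⟩ := hD
      refine le_trans ?_ hsum0
      refine mul_nonpos_of_nonneg_of_nonpos (by positivity) ?_
      have h2 := single_le_sum (f := fun x : (Σ _ : ℕ, ℕ) =>
        Dd ((P' x.1 - P x.1) * (P' x.1 - P x.1)) (S x.1) d p
        (a x.1 - c x.1 x.2 * a x.2)) hD0 hx
      have h3 : 1 ≤ 1 / (η ^ 3 * p) * ∑ x ∈ prs n, Dd ((P' x.1 - P x.1) * (P' x.1 - P x.1)) (S x.1) d p
          (a x.1 - c x.1 x.2 * a x.2) := by
        rw [one_div, ← div_eq_inv_mul, le_div_iff₀ (by positivity), one_mul]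
        exact h1.le.trans h2
      linarith
  · push Not at he
    obtain ⟨j, hj, h1⟩ := he
    have h2 : cls (q j) (r j) (a j) = 0 := by
      rcases cls_sp (q j) (r j) (a j) with h | h
      · exact absurd h.1 h1
      · exact h.1
    have hW : ∏ j ∈ range n, cls (q j) (r j) (a j) = 0 := prod_eq_zero (mem_range.2 hj) h2
    rw [hW]
    simp only [zero_mul, sum_const_zero, mul_zero, add_zero]
    exact hsum0

/-- HF-LOW -/
theorem lowG (hper : S_per) (hloc : S_locG) (hcls : S_cls) : S_lowG := by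
  classical
  intro ε hε
  obtain ⟨n₀, P₁, hnp⟩ := hloc ε hε
  refine ⟨n₀, ?_⟩
  intro n hn m hm P q S c η hη h1 h2
  obtain ⟨P₀, hP₀⟩ := hper n P q S fun j hj => (h1 j hj).2
  obtain ⟨p, hpN, hp⟩ := Nat.exists_infinite_primes (max P₀ P₁)
  obtain ⟨d, hd⟩ := hP₀ p hp (le_trans (le_max_left _ _) hpN) η hη
  have hlocp := hnp n p hn hp (le_trans (le_max_right _ _) hpN) η hη
  have hp0 : (0 : ℝ) < p := by exact_mod_cast hp.pos
  have hq0 : ∀ j ∈ range n, (0 : ℝ) < 1 / (q j : ℝ) := fun j hj => by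
    have := (h1 j (mem_range.1 hj)).2.2.1
    have : (0 : ℝ) < q j := by exact_mod_cast this
    positivity
  have hQ : 0 < ∏ j ∈ range n, (1 / (q j : ℝ)) := prod_pos hq0
  obtain ⟨M, hM⟩ : ∃ M : ℝ, M = (min η 1) ^ (n * n) := ⟨_, rfl⟩
  have hM0 : 0 < M := by
    rw [hM]
    exact pow_pos (lt_min hη one_pos) _
  obtain ⟨E, hE⟩ : ∃ E : ℝ, E = M * (1 / 2 * ∏ j ∈ range n, (1 / (q j : ℝ))) := ⟨_, rfl⟩
  have hE0 : 0 < E := by rw [hE]; positivity
  refine ⟨E / (2 * (2 ^ (n * n) * (p : ℝ) ^ n)), by positivity, ?_⟩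
  intro P' r hP' h3
  have hF := fun s b => GP_bd (n := n) (e := fun j => cls (q j) (r j)) (c := c) s
    (fun j x => ind_01 {a : ℤ | ((q j : ℕ) : ℤ) ∣ a - r j} x) hP' b
  have hF1 : ∀ s a, |GP (fun j => cls (q j) (r j)) P' c s n a| ≤ 1 := fun s a => by
    rw [abs_of_nonneg (hF s a).1]
    exact (hF s a).2
  -- averaging
  have hsumb : ∀ (s : ℕ → Finset ℕ) (a : ℕ → ℤ), |∑ z ∈ Fintype.piFinset (fun _ : Fin n => range p),
      GP (fun j => cls (q j) (r j)) P' c s n (a + szn n S d z)| ≤ (p : ℝ) ^ n := fun s a => by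
    refine (abs_sum_le_sum_abs _ _).trans ?_
    have := sum_le_card_nsmul (Fintype.piFinset (fun _ : Fin n => range p))
      (fun z => |GP (fun j => cls (q j) (r j)) P' c s n (a + szn n S d z)|) 1 (fun z _ => hF1 _ _)
    rw [nsmul_eq_mul, Fintype.card_piFinset_const, card_range, mul_one] at this
    push_cast at this
    simpa using this
  have e1 : ∀ s : ℕ → Finset ℕ, (p : ℝ) ^ n * It m n (GP (fun j => cls (q j) (r j)) P' c s n) =
      It m n (fun a => ∑ z ∈ Fintype.piFinset (fun _ : Fin n => range p),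
        GP (fun j => cls (q j) (r j)) P' c s n (a + szn n S d z)) := by
    intro s
    rw [It_sum hm n (C := 1) _ _ (fun z _ a => hF1 _ _)]
    have : ∀ z ∈ Fintype.piFinset (fun _ : Fin n => range p),
        It m n (fun a => GP (fun j => cls (q j) (r j)) P' c s n (a + szn n S d z)) =
          It m n (GP (fun j => cls (q j) (r j)) P' c s n) := fun z _ =>
      It_shift hm n (hF1 s) (szn n S d z) fun j hj => by
        unfold szn
        rw [dif_neg (by omega)]
    rw [sum_congr rfl this, sum_const, Fintype.card_piFinset_const, card_range, nsmul_eq_mul]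
    push_cast
    simp
  -- pointwise bound
  have hA : ∀ j, 1 ≤ j → j < n → ∀ x : ℤ, (q j : ℤ) ∣ x - r j →
      (1 / 2 + ε + 6 * η) * p ≤ ∑ z ∈ range p, P j (x + S j * d * z) := fun j hj hj5 x hx =>
    lemA hcls (hm j) hη (h1 j hj5).2.2.1 (h1 j hj5).2.2.2.2 (hd j hj5).2 (h3 j hj hj5).1 hx
  have hpt := point (ρ := 1 / 2 + ε) (P := P) (P' := P') (q := q) (S := S) (c := c) (r := r) (d := d)
    hη hp hlocp
    (fun j hj => (h1 j hj).1) hP' (fun j hj => (h1 j hj).2.2.2.2) h2 (fun j hj => (hd j hj).1) hA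
  rw [← hM] at hpt
  -- the two parts
  obtain ⟨W, hW⟩ : ∃ W : (ℕ → ℤ) → ℝ, W = fun a => ∏ j ∈ range n, cls (q j) (r j) (a j) := ⟨_, rfl⟩
  obtain ⟨T, hT⟩ : ∃ T : (Σ _ : ℕ, ℕ) → (ℕ → ℤ) → ℝ, T = fun x a =>
    Dd ((P' x.1 - P x.1) * (P' x.1 - P x.1)) (S x.1) d p (a x.1 - c x.1 x.2 * a x.2) := ⟨_, rfl⟩
  have hcb : ∀ j x, |cls (q j) (r j) x| ≤ 1 := fun j x => by
    rcases cls_sp (q j) (r j) x with h | h
    · rw [h.1, abs_one]
    · rw [h.1, abs_zero]
      norm_num
  have hWb : ∀ a, |W a| ≤ 1 := by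
    intro a
    rw [hW]
    simp only
    rw [Finset.abs_prod]
    exact prod_le_one (fun _ _ => abs_nonneg _) fun j _ => hcb j _
  have hgb : ∀ j < n, ∀ x, 0 ≤ ((P' j - P j) * (P' j - P j)) x ∧ ((P' j - P j) * (P' j - P j)) x ≤ 1 := by
    intro j hj x
    simp only [BoundedContinuousFunction.coe_mul, Pi.mul_apply, BoundedContinuousFunction.coe_sub,
      Pi.sub_apply]
    have b1 := (h1 j hj).1 x
    have b2 := hP' j hj x
    exact ⟨mul_self_nonneg _, by nlinarith [b1.1, b1.2, b2.1, b2.2]⟩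
  have hTb : ∀ x ∈ prs n, ∀ a, 0 ≤ T x a ∧ T x a ≤ 2 * p := by
    rintro ⟨j, i⟩ hx a
    have hx5 := (mem_prs.1 hx).2
    rw [hT]
    exact Dd_bd (hgb j hx5) _ _ _ _
  have hWT : ∀ x ∈ prs n, ∀ a, |W a * T x a| ≤ 2 * p := by
    intro x hx a
    rw [abs_mul, abs_of_nonneg (hTb x hx a).1]
    calc |W a| * T x a ≤ 1 * T x a := mul_le_mul_of_nonneg_right (hWb a) (hTb x hx a).1
      _ ≤ 2 * p := by rw [one_mul]; exact (hTb x hx a).2
  have hIW : It m n W = ∏ j ∈ range n, (1 / (q j : ℝ)) := by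
    rw [hW]
    refine It_prod hm n (fun j _ x => cls (q j) (r j) x) (C := 1) (fun j _ x => hcb j x)
      (fun _ _ _ _ _ => rfl) _ fun j hj _ => ?_
    rw [toB_coe, hcls.2.1 (m j) (hm j) (q j) (r j) (h1 j hj).2.2.1]
  have hn1 : (0 : ℝ) < (n : ℝ) + 1 := by positivity
  have hIT : ∀ x ∈ prs n, It m n (fun a => W a * T x a) ≤
      (∏ j ∈ range n, (1 / (q j : ℝ))) * (p * η ^ 3 / ((n : ℝ) + 1) ^ 2) := by
    rintro ⟨j, i⟩ hx
    obtain ⟨hij, hj5⟩ := mem_prs.1 hx
    have hqj : (0 : ℝ) < q j := by exact_mod_cast (h1 j hj5).2.2.1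
    have e2 : (fun a => W a * T ⟨j, i⟩ a) = fun a => ∏ k ∈ range n,
        (cls (q k) (r k) (a k) * (if k = j then Dd ((P' j - P j) * (P' j - P j)) (S j) d p
          (a k - c j i * a i) else 1)) := by
      funext a
      rw [prod_mul_distrib, hW, hT]
      congr 1
      rw [prod_ite_eq', if_pos (mem_range.2 hj5)]
    rw [e2]
    have e3 := It_prod hm n (fun k a t => cls (q k) (r k) t *
      (if k = j then Dd ((P' j - P j) * (P' j - P j)) (S j) d p (t - c j i * a i) else 1))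
      (C := 2 * p + 1) (fun k a t => by
        rw [abs_mul]
        have b1 := hcb k t
        have b2 : |(if k = j then Dd ((P' j - P j) * (P' j - P j)) (S j) d p (t - c j i * a i) else 1)| ≤
            2 * p + 1 := by
          split_ifs
          · have b3 := Dd_bd (hgb j hj5) (S j) d p (t - c j i * a i)
            rw [abs_of_nonneg b3.1]
            linarith
          · rw [abs_one]
            linarith
        calc _ ≤ 1 * (2 * (p : ℝ) + 1) := mul_le_mul b1 b2 (abs_nonneg _) zero_le_one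
          _ = _ := one_mul _)
      (fun k _ a b hab => by
        funext t
        by_cases hk : k = j
        · rw [if_pos hk, if_pos hk, hab i (by omega)]
        · rw [if_neg hk, if_neg hk])
      (fun k => (1 / (q k : ℝ)) * (if k = j then q j * (2 * p *
        m j (cls (q j) (r j) * ((P' j - P j) * (P' j - P j)))) else 1))
      (fun k hk a => by
        by_cases hkj : k = j
        · subst hkj
          simp only [if_true]
          rw [lemB (hm k) (hgb k hj5) (h1 k hj5).2.2.2.2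
            (Dvd.dvd.mul_right (Int.natCast_dvd_natCast.2 (h2 i k hij hj5).1) _)]
          field_simp
        · simp only [if_neg hkj, mul_one]
          rw [toB_coe, hcls.2.1 (m k) (hm k) (q k) (r k) (h1 k hk).2.2.1])
    rw [e3, prod_mul_distrib, prod_ite_eq', if_pos (mem_range.2 hj5)]
    refine mul_le_mul_of_nonneg_left ?_ hQ.le
    have h4 := (h3 j (by omega) hj5).2
    rw [le_div_iff₀ hqj] at h4
    calc (q j : ℝ) * (2 * p * m j (cls (q j) (r j) * ((P' j - P j) * (P' j - P j))))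
        = 2 * p * (m j (cls (q j) (r j) * ((P' j - P j) * (P' j - P j))) * q j) := by ring
      _ ≤ 2 * p * (η ^ 3 / (2 * (n + 1) ^ 2)) := mul_le_mul_of_nonneg_left h4 (by positivity)
      _ = p * η ^ 3 / ((n : ℝ) + 1) ^ 2 := by
        field_simp
  -- assembling
  obtain ⟨N2, hN2⟩ : ∃ N2 : ℝ, N2 = ((prs n).card : ℝ) := ⟨_, rfl⟩
  have hSb : ∀ a, |∑ x ∈ prs n, W a * T x a| ≤ N2 * (2 * p) := by
    intro a
    refine (abs_sum_le_sum_abs _ _).trans ?_
    have := sum_le_card_nsmul (prs n) (fun x => |W a * T x a|) (2 * p) (fun x hx => hWT x hx a)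
    rw [nsmul_eq_mul, ← hN2] at this
    exact this
  obtain ⟨κ, hκ⟩ : ∃ κ : ℝ, κ = 1 / (η ^ 3 * p) := ⟨_, rfl⟩
  have hκ0 : 0 ≤ κ := by
    rw [hκ]
    positivity
  rw [← hκ] at hpt
  have hSb2 : ∀ a, |(-κ) * ∑ x ∈ prs n, W a * T x a| ≤ κ * (N2 * (2 * (p : ℝ))) := fun a => by
    rw [abs_mul, abs_neg, abs_of_nonneg hκ0]
    exact mul_le_mul_of_nonneg_left (hSb a) hκ0
  have hRb : ∀ a, |W a + (-κ) * ∑ x ∈ prs n, W a * T x a| ≤ 1 + κ * (N2 * (2 * (p : ℝ))) := fun a =>
    (abs_add_le _ _).trans (add_le_add (hWb a) (hSb2 a))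
  have hRb2 : ∀ a, |M * (W a + (-κ) * ∑ x ∈ prs n, W a * T x a)| ≤
      M * (1 + κ * (N2 * (2 * (p : ℝ)))) := fun a => by
    rw [abs_mul, abs_of_nonneg hM0.le]
    exact mul_le_mul_of_nonneg_left (hRb a) hM0.le
  have hbig : ∀ a : ℕ → ℤ, |∑ t ∈ grs n, ∑ z ∈ Fintype.piFinset (fun _ : Fin n => range p),
      GP (fun j => cls (q j) (r j)) P' c (gr t) n (a + szn n S d z)| ≤
      ((grs n).card : ℝ) * (p : ℝ) ^ n := fun a => by
    refine (abs_sum_le_sum_abs _ _).trans ?_
    have := sum_le_card_nsmul (grs n) (fun t => |∑ z ∈ Fintype.piFinset (fun _ : Fin n => range p),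
      GP (fun j => cls (q j) (r j)) P' c (gr t) n (a + szn n S d z)|) ((p : ℝ) ^ n)
      (fun t _ => hsumb _ _)
    rwa [nsmul_eq_mul] at this
  have e4 : It m n (fun a => M * (W a + (-κ) * ∑ x ∈ prs n, W a * T x a)) ≤
      It m n (fun a => ∑ t ∈ grs n, ∑ z ∈ Fintype.piFinset (fun _ : Fin n => range p),
        GP (fun j => cls (q j) (r j)) P' c (gr t) n (a + szn n S d z)) :=
    It_mono hm n hRb2 hbig fun a => by
      rw [hW, hT]
      exact hpt a
  rw [It_smul hm n hRb, It_add hm n hWb hSb2, It_smul hm n hSb, hIW,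
    It_sum hm n (prs n) (fun x a => W a * T x a) hWT,
    It_sum hm n (grs n) (fun t a => ∑ z ∈ Fintype.piFinset (fun _ : Fin n => range p),
        GP (fun j => cls (q j) (r j)) P' c (gr t) n (a + szn n S d z)) (fun t _ => hsumb _)] at e4
  have e5 : ∑ x ∈ prs n, It m n (fun a => W a * T x a) ≤
      N2 * ((∏ j ∈ range n, (1 / (q j : ℝ))) * (p * η ^ 3 / ((n : ℝ) + 1) ^ 2)) := by
    have := sum_le_card_nsmul (prs n) _ _ hIT
    rw [nsmul_eq_mul, ← hN2] at this
    exact this
  have hN2b : 2 * N2 ≤ (n : ℝ) ^ 2 := by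
    rw [hN2]
    exact prs_card n
  have e6 : κ * ∑ x ∈ prs n, It m n (fun a => W a * T x a) ≤
      1 / 2 * ∏ j ∈ range n, (1 / (q j : ℝ)) := by
    refine (mul_le_mul_of_nonneg_left e5 hκ0).trans ?_
    have e7 : κ * (N2 * ((∏ j ∈ range n, (1 / (q j : ℝ))) * (p * η ^ 3 / ((n : ℝ) + 1) ^ 2))) =
        (N2 / ((n : ℝ) + 1) ^ 2) * ∏ j ∈ range n, (1 / (q j : ℝ)) := by
      rw [hκ]
      field_simp
    rw [e7]
    refine mul_le_mul_of_nonneg_right ?_ hQ.le
    rw [div_le_iff₀ (by positivity)]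
    have : (0 : ℝ) ≤ n := Nat.cast_nonneg n
    nlinarith
  have e7 : E ≤ ∑ t ∈ grs n, (p : ℝ) ^ n * It m n (GP (fun j => cls (q j) (r j)) P' c (gr t) n) := by
    have g1 : ∑ t ∈ grs n, (p : ℝ) ^ n * It m n (GP (fun j => cls (q j) (r j)) P' c (gr t) n) =
        ∑ t ∈ grs n, It m n (fun a => ∑ z ∈ Fintype.piFinset (fun _ : Fin n => range p),
          GP (fun j => cls (q j) (r j)) P' c (gr t) n (a + szn n S d z)) :=
      sum_congr rfl fun t _ => e1 (gr t)
    rw [g1]
    refine le_trans ?_ e4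
    rw [hE]
    refine mul_le_mul_of_nonneg_left ?_ hM0.le
    linarith
  -- choice of the graph
  by_contra hcon
  push Not at hcon
  have e8 : ∀ t ∈ grs n, (p : ℝ) ^ n * It m n (GP (fun j => cls (q j) (r j)) P' c (gr t) n) ≤
      (p : ℝ) ^ n * (E / (2 * (2 ^ (n * n) * (p : ℝ) ^ n))) := by
    intro t ht
    have g1 : NoInd n (gr t) := by
      unfold grs at ht
      exact (mem_filter.1 ht).2
    exact mul_le_mul_of_nonneg_left (hcon (gr t) g1).le (by positivity)
  have e9 := sum_le_card_nsmul (grs n) _ _ e8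
  rw [nsmul_eq_mul] at e9
  have e10 : ((grs n).card : ℝ) ≤ 2 ^ (n * n) := by exact_mod_cast grs_card n
  have e11 : ((grs n).card : ℝ) * ((p : ℝ) ^ n * (E / (2 * (2 ^ (n * n) * (p : ℝ) ^ n)))) ≤ E / 2 := by
    calc ((grs n).card : ℝ) * ((p : ℝ) ^ n * (E / (2 * (2 ^ (n * n) * (p : ℝ) ^ n))))
        ≤ 2 ^ (n * n) * ((p : ℝ) ^ n * (E / (2 * (2 ^ (n * n) * (p : ℝ) ^ n)))) :=
          mul_le_mul_of_nonneg_right e10 (by positivity)
      _ = E / 2 := by
        field_simp
  linarith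

end Pool.Agent.W372.HF
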